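import Pool.Agent.E8helper19.PM.Stm

/-!
Project PM, piece PM5: strong convergence to zero in `L²(D)`.
-/

set_option autoImplicit false
open MeasureTheory Filter Topology Set Module
open scoped ContDiff ENNReal NNReal Real InnerProductSpace Manifold

namespace Pool.Agent.E8helper67.PM

open Pool.Agent.E8helper19.PM

noncomputable section

lemma SmoothSet.isOpen {D : Set E} (h : SmoothSet D) : IsOpen D := by
  obtain ⟨ρ, h1, rfl, -⟩ := h
  exact isOpen_lt h1.continuous continuous_const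

/-- a cutoff function -/
lemma exists_cutoff {D K : Set E} (hD : IsOpen D) (hK : IsCompact K) (hKD : K ⊆ D) :
    ∃ η : E → ℝ, ContDiff ℝ ∞ η ∧ HasCompactSupport η ∧ tsupport η ⊆ D ∧ (∀ y ∈ K, η y = 1) ∧
      ∀ y, 0 ≤ η y ∧ η y ≤ 1 := by
  obtain ⟨V, hV, hKV, hVD, hVc⟩ := exists_open_between_and_isCompact_closure hK hD hKD
  obtain ⟨f, hf0, hf1, hf⟩ := exists_contMDiffMap_zero_one_of_isClosed (n := (⊤ : ℕ∞)) 𝓘(ℝ, E)
    (s := Vᶜ) (t := K) hV.isClosed_compl hK.isClosed (by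
      rw [Set.disjoint_compl_left_iff_subset]
      exact hKV)
  have hsupp : Function.support f ⊆ V := by
    intro y hy
    by_contra hyV
    exact hy (hf0 hyV)
  have hts : tsupport f ⊆ closure V := closure_mono hsupp
  refine ⟨f, f.contMDiff.contDiff, ?_, hts.trans hVD, fun y hy => hf1 hy, fun y => hf y⟩
  exact IsCompact.of_isClosed_subset hVc (isClosed_tsupport _) hts

lemma fderiv_norm_le (v : E → ℂ) (y : E) : ‖fderiv ℝ v y‖ ≤ 3 * ‖gr v y‖ := by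
  apply ContinuousLinearMap.opNorm_le_bound _ (by positivity)
  intro h
  have h1 : h = ∑ j : Fin 3, h j • (EuclideanSpace.single j (1 : ℝ) : E) := by
    ext i
    simp [Fin.sum_univ_three]
    fin_cases i <;> simp
  have h2 : fderiv ℝ v y h = ∑ j : Fin 3, h j • pd j v y := by
    conv_lhs => rw [h1]
    rw [map_sum]
    simp only [map_smul]
    rfl
  rw [h2]
  have h3 : ∀ j : Fin 3, ‖h j • pd j v y‖ ≤ ‖h‖ * ‖gr v y‖ := by
    intro j
    rw [norm_smul]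
    have h4 : ‖h j‖ ≤ ‖h‖ := PiLp.norm_apply_le h j
    have h5 : ‖pd j v y‖ ≤ ‖gr v y‖ := PiLp.norm_apply_le (gr v y) j
    exact mul_le_mul h4 h5 (norm_nonneg _) (norm_nonneg _)
  calc ‖∑ j : Fin 3, h j • pd j v y‖ ≤ ∑ j : Fin 3, ‖h j • pd j v y‖ := norm_sum_le _ _
    _ ≤ ∑ _j : Fin 3, ‖h‖ * ‖gr v y‖ := Finset.sum_le_sum fun j _ => h3 j
    _ = 3 * ‖gr v y‖ * ‖h‖ := by
      rw [Finset.sum_const, Finset.card_univ, Fintype.card_fin]
      simp
      ring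

section prod

variable {Ω D : Set E} {v : E → ℂ} {η : E → ℝ}

lemma contDiff_prod (hΩ : IsOpen Ω) (hv : ContDiffOn ℝ 1 v Ω) (hη : ContDiff ℝ ∞ η)
    (hs : tsupport η ⊆ Ω) : ContDiff ℝ 1 (fun y => η y • v y) := by
  rw [contDiff_iff_contDiffAt]
  intro y
  by_cases hy : y ∈ Ω
  · exact (hη.contDiffAt.of_le (by simp)).smul (hv.contDiffAt (hΩ.mem_nhds hy))
  · have hy' : y ∉ tsupport η := fun h => hy (hs h)
    have h1 : (fun y => η y • v y) =ᶠ[𝓝 y] fun _ => (0 : ℂ) := by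
      filter_upwards [(isClosed_tsupport η).isOpen_compl.mem_nhds hy'] with z hz
      rw [image_eq_zero_of_notMem_tsupport hz, zero_smul]
    exact contDiffAt_const.congr_of_eventuallyEq h1

lemma compact_prod (hc : HasCompactSupport η) : HasCompactSupport (fun y => η y • v y) :=
  hc.smul_right

lemma fderiv_prod_le (hΩ : IsOpen Ω) (hv : ContDiffOn ℝ 1 v Ω) (hη : ContDiff ℝ ∞ η)
    (h01 : ∀ y, 0 ≤ η y ∧ η y ≤ 1) {M : ℝ} (hM : ∀ y, ‖fderiv ℝ η y‖ ≤ M) {y : E} (hy : y ∈ Ω) :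
    ‖fderiv ℝ (fun y => η y • v y) y‖ ^ 2 ≤ (18 + 2 * M ^ 2) * (‖v y‖ ^ 2 + ‖gr v y‖ ^ 2) := by
  have hM0 : 0 ≤ M := (norm_nonneg _).trans (hM y)
  have hd1 : DifferentiableAt ℝ η y := (hη.differentiable (by simp)).differentiableAt
  have hd2 : DifferentiableAt ℝ v y :=
    (hv.contDiffAt (hΩ.mem_nhds hy)).differentiableAt (by simp)
  have h1 : ‖fderiv ℝ (fun y => η y • v y) y‖ ≤ 3 * ‖gr v y‖ + M * ‖v y‖ := by
    rw [fderiv_fun_smul hd1 hd2]
    refine (norm_add_le _ _).trans (add_le_add ?_ ?_)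
    · rw [norm_smul, Real.norm_eq_abs, abs_of_nonneg (h01 y).1]
      calc η y * ‖fderiv ℝ v y‖ ≤ 1 * (3 * ‖gr v y‖) :=
            mul_le_mul (h01 y).2 (fderiv_norm_le v y) (norm_nonneg _) zero_le_one
        _ = 3 * ‖gr v y‖ := one_mul _
    · rw [ContinuousLinearMap.norm_smulRight_apply]
      exact mul_le_mul_of_nonneg_right (hM y) (norm_nonneg _)
  have h2 : 0 ≤ 3 * ‖gr v y‖ + M * ‖v y‖ := by positivity
  have h3 : ‖fderiv ℝ (fun y => η y • v y) y‖ ^ 2 ≤ (3 * ‖gr v y‖ + M * ‖v y‖) ^ 2 :=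
    pow_le_pow_left₀ (norm_nonneg _) h1 2
  have h4 : 0 ≤ ‖v y‖ ^ 2 := by positivity
  have h5 : 0 ≤ M ^ 2 * ‖gr v y‖ ^ 2 := by positivity
  nlinarith [sq_nonneg (3 * ‖gr v y‖ - M * ‖v y‖)]

lemma int_H1 (hΩ : IsOpen Ω) (hb : Bornology.IsBounded Ω) (hDΩ : closure D ⊆ Ω)
    (hv : ContDiffOn ℝ 1 v Ω) : IntegrableOn (fun y => ‖v y‖ ^ 2 + ‖gr v y‖ ^ 2) D ∧
      IntegrableOn (fun y => ‖v y‖ ^ 2) D := by
  have hcpt : IsCompact (closure D) :=
    Metric.isCompact_of_isClosed_isBounded isClosed_closure (hb.subset hDΩ)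
  have h1 : ContinuousOn v (closure D) := hv.continuousOn.mono hDΩ
  have h2 : ContinuousOn (gr v) (closure D) := by
    have h3 : ContinuousOn (fderiv ℝ v) Ω := hv.continuousOn_fderiv_of_isOpen hΩ le_rfl
    refine (PiLp.continuous_toLp 2 _).comp_continuousOn (continuousOn_pi.2 fun j => ?_)
    exact (h3.mono hDΩ).clm_apply continuousOn_const
  exact ⟨(((h1.norm.pow 2).add (h2.norm.pow 2)).integrableOn_compact hcpt).mono_set subset_closure,
    ((h1.norm.pow 2).integrableOn_compact hcpt).mono_set subset_closure⟩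

end prod

/-- from the norm to the integral -/
lemma int_of_eLpNorm {F : Type*} [NormedAddCommGroup F] {μ : Measure E} {f : E → F}
    (hf : MemLp f 2 μ) {a : ℝ} (ha : 0 ≤ a) (h : eLpNorm f 2 μ ≤ ENNReal.ofReal a) :
    ∫ y, ‖f y‖ ^ 2 ∂μ ≤ a ^ 2 := by
  rw [hf.eLpNorm_eq_integral_rpow_norm (by norm_num) (by norm_num),
    ENNReal.ofReal_le_ofReal_iff ha] at h
  simp only [ENNReal.toReal_ofNat, Real.rpow_two] at h
  have h0 : 0 ≤ ∫ y, ‖f y‖ ^ 2 ∂μ := integral_nonneg fun y => by positivity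
  have h1 : (∫ y, ‖f y‖ ^ 2 ∂μ) = ((∫ y, ‖f y‖ ^ 2 ∂μ) ^ (2 : ℝ)⁻¹) ^ 2 := by
    rw [← Real.rpow_natCast, ← Real.rpow_mul h0]
    norm_num
  rw [h1]
  exact pow_le_pow_left₀ (Real.rpow_nonneg h0 _) h 2

/-- from the integral to the norm -/
lemma eLpNorm_of_int {F : Type*} [NormedAddCommGroup F] {μ : Measure E} {f : E → F}
    (hf : MemLp f 2 μ) {a : ℝ} (ha : 0 ≤ a) (h : ∫ y, ‖f y‖ ^ 2 ∂μ ≤ a ^ 2) :
    eLpNorm f 2 μ ≤ ENNReal.ofReal a := by
  rw [hf.eLpNorm_eq_integral_rpow_norm (by norm_num) (by norm_num),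
    ENNReal.ofReal_le_ofReal_iff ha]
  simp only [ENNReal.toReal_ofNat, Real.rpow_two]
  have h0 : 0 ≤ ∫ y, ‖f y‖ ^ 2 ∂μ := integral_nonneg fun y => by positivity
  calc (∫ y, ‖f y‖ ^ 2 ∂μ) ^ (2 : ℝ)⁻¹ ≤ (a ^ 2) ^ (2 : ℝ)⁻¹ :=
        Real.rpow_le_rpow h0 h (by norm_num)
    _ = a := by
      rw [← Real.rpow_natCast, ← Real.rpow_mul ha]
      norm_num

/-- no concentration on small sets -/
lemma small_sets {Ω D : Set E} {η : E → ℝ} (hΩ : IsOpen Ω) (hb : Bornology.IsBounded Ω)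
    (hD : IsOpen D) (hDΩ : closure D ⊆ Ω) (hη : ContDiff ℝ ∞ η) (hc : HasCompactSupport η)
    (hs : tsupport η ⊆ D) (h01 : ∀ y, 0 ≤ η y ∧ η y ≤ 1) {ε : ℝ} (hε : 0 < ε) :
    ∃ δ : ℝ, 0 < δ ∧ ∀ O : Set E, MeasurableSet O → volume O < ENNReal.ofReal δ →
      ∀ v : E → ℂ, ContDiffOn ℝ 1 v Ω → H1 D v ≤ 1 → ∫ y in O, ‖η y • v y‖ ^ 2 ≤ ε := by
  obtain ⟨M, hM⟩ : ∃ M, ∀ y, ‖fderiv ℝ η y‖ ≤ M :=
    (hc.fderiv (𝕜 := ℝ)).exists_bound_of_continuous (hη.continuous_fderiv (by simp))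
  have hM0 : 0 ≤ M := (norm_nonneg _).trans (hM 0)
  set C : ℝ≥0 := SNormLESNormFDerivOfEqConst ℂ (volume : Measure E) ((2 : ℝ≥0) : ℝ) with hC
  set b : ℝ := C * √(18 + 2 * M ^ 2) with hbdef
  have hb0 : 0 ≤ b := by positivity
  set s : ℝ := √ε / (b + 1) with hsdef
  have hs0 : 0 < s := by positivity
  have hbs : b * s ≤ √ε := by
    rw [hsdef, mul_div_assoc', div_le_iff₀ (by positivity)]
    nlinarith [Real.sqrt_nonneg ε]
  refine ⟨s ^ 3, by positivity, fun O hO hvol v hv hH => ?_⟩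
  set f : E → ℂ := fun y => η y • v y with hf
  have hDΩ' : D ⊆ Ω := subset_closure.trans hDΩ
  have hf1 : ContDiff ℝ 1 f := contDiff_prod hΩ hv hη (hs.trans hDΩ')
  have hfc : HasCompactSupport f := compact_prod hc
  have hm2 : MemLp f 2 volume := hf1.continuous.memLp_of_hasCompactSupport hfc
  have hm2' : MemLp (fderiv ℝ f) 2 volume :=
    (hf1.continuous_fderiv one_ne_zero).memLp_of_hasCompactSupport (hfc.fderiv (𝕜 := ℝ))
  have hgrad : ∫ y, ‖fderiv ℝ f y‖ ^ 2 ≤ √(18 + 2 * M ^ 2) ^ 2 := by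
    rw [Real.sq_sqrt (by positivity)]
    have h1 : ∫ y, ‖fderiv ℝ f y‖ ^ 2 = ∫ y in D, ‖fderiv ℝ f y‖ ^ 2 := by
      rw [setIntegral_eq_integral_of_forall_compl_eq_zero]
      intro y hy
      have h2 : f =ᶠ[𝓝 y] fun _ => (0 : ℂ) := by
        filter_upwards [(isClosed_tsupport η).isOpen_compl.mem_nhds fun h => hy (hs h)] with z hz
        change η z • v z = 0
        rw [image_eq_zero_of_notMem_tsupport hz, zero_smul]
      rw [h2.fderiv_eq]
      simp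
    rw [h1]
    calc ∫ y in D, ‖fderiv ℝ f y‖ ^ 2
        ≤ ∫ y in D, (18 + 2 * M ^ 2) * (‖v y‖ ^ 2 + ‖gr v y‖ ^ 2) := by
          apply setIntegral_mono_on
          · exact (hm2'.integrable_norm_pow (by norm_num)).integrableOn
          · exact (int_H1 hΩ hb hDΩ hv).1.const_mul _
          · exact hD.measurableSet
          · intro y hy
            exact fderiv_prod_le hΩ hv hη h01 hM (hDΩ' hy)
      _ = (18 + 2 * M ^ 2) * H1 D v := integral_const_mul _ _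
      _ ≤ (18 + 2 * M ^ 2) * 1 := mul_le_mul_of_nonneg_left hH (by positivity)
      _ = 18 + 2 * M ^ 2 := mul_one _
  have hg2 : eLpNorm (fderiv ℝ f) 2 volume ≤ ENNReal.ofReal (√(18 + 2 * M ^ 2)) :=
    eLpNorm_of_int hm2' (Real.sqrt_nonneg _) hgrad
  have hsob : eLpNorm f ((6 : ℝ≥0) : ℝ≥0∞) volume ≤
      C * eLpNorm (fderiv ℝ f) ((2 : ℝ≥0) : ℝ≥0∞) volume := by
    have hfr : finrank ℝ E = 3 := by simp
    have h3 := eLpNorm_le_eLpNorm_fderiv_of_eq (p := (2 : ℝ≥0)) (p' := (6 : ℝ≥0))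
      (volume : Measure E) hf1 hfc (by norm_num) (by rw [hfr]; norm_num)
      (by rw [hfr]; push_cast; norm_num)
    exact h3
  have h6 : eLpNorm f 6 (volume.restrict O) ≤ ENNReal.ofReal b := by
    calc eLpNorm f 6 (volume.restrict O) ≤ eLpNorm f 6 volume :=
          eLpNorm_mono_measure _ Measure.restrict_le_self
      _ ≤ C * eLpNorm (fderiv ℝ f) 2 volume := by exact_mod_cast hsob
      _ ≤ C * ENNReal.ofReal (√(18 + 2 * M ^ 2)) := by gcongr
      _ = ENNReal.ofReal b := by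
          rw [hbdef, ENNReal.ofReal_mul NNReal.zero_le_coe, ENNReal.ofReal_coe_nnreal]
  have h2 : eLpNorm f 2 (volume.restrict O) ≤ ENNReal.ofReal (√ε) := by
    have hfin : volume O ^ (1 / (2 : ℝ≥0∞).toReal - 1 / (6 : ℝ≥0∞).toReal) ≤ ENNReal.ofReal s := by
      have h3 : (1 / (2 : ℝ≥0∞).toReal - 1 / (6 : ℝ≥0∞).toReal) = (3 : ℝ)⁻¹ := by
        simp only [ENNReal.toReal_ofNat]
        norm_num
      rw [h3]
      calc volume O ^ (3 : ℝ)⁻¹ ≤ ENNReal.ofReal (s ^ 3) ^ (3 : ℝ)⁻¹ :=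
            ENNReal.rpow_le_rpow hvol.le (by norm_num)
        _ = ENNReal.ofReal s := by
            rw [ENNReal.ofReal_rpow_of_pos (by positivity), ← Real.rpow_natCast,
              ← Real.rpow_mul hs0.le]
            norm_num
    calc eLpNorm f 2 (volume.restrict O)
        ≤ eLpNorm f 6 (volume.restrict O) * (volume.restrict O) univ ^
            (1 / (2 : ℝ≥0∞).toReal - 1 / (6 : ℝ≥0∞).toReal) :=
          eLpNorm_le_eLpNorm_mul_rpow_measure_univ (by norm_num)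
            hf1.continuous.aestronglyMeasurable
      _ ≤ ENNReal.ofReal b * ENNReal.ofReal s := by
          rw [Measure.restrict_apply_univ]
          gcongr
      _ = ENNReal.ofReal (b * s) := (ENNReal.ofReal_mul hb0).symm
      _ ≤ ENNReal.ofReal (√ε) := ENNReal.ofReal_le_ofReal hbs
  have h3 := int_of_eLpNorm (hm2.restrict O) (Real.sqrt_nonneg _) h2
  rwa [Real.sq_sqrt hε.le] at h3

theorem t_R0 (h : S_NC) : S_R0 := by
  intro Ω D S v hΩ hb hDs hDΩ hS hS0 hv hH hK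
  have hD := SmoothSet.isOpen hDs
  have hDΩ' : D ⊆ Ω := subset_closure.trans hDΩ
  rw [Metric.tendsto_atTop]
  intro ε hε
  obtain ⟨⟨K, hKc, hKD, hK1⟩, -⟩ := h Ω D (ε / 4) hΩ hb hDs hDΩ (by positivity)
  obtain ⟨η, hη, hηc, hηs, hη1, h01⟩ := exists_cutoff hD hKc hKD
  obtain ⟨δ, hδ, hδ2⟩ := small_sets hΩ hb hD hDΩ hη hηc hηs h01 (ε := ε / 4) (by positivity)
  obtain ⟨O, hSO, hO, hOv⟩ := Set.exists_isOpen_lt_of_lt S (ENNReal.ofReal δ)
    (by rw [hS0]; exact ENNReal.ofReal_pos.2 hδ)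
  have hKO : IsCompact (K \ O) := hKc.diff hO
  have hlim := hK (K \ O) hKO (fun y hy => ⟨hKD hy.1, fun hyS => hy.2 (hSO hyS)⟩)
  rw [Metric.tendsto_atTop] at hlim
  obtain ⟨N, hN⟩ := hlim (ε / 4) (by positivity)
  refine ⟨N, fun n hn => ?_⟩
  have hint := (int_H1 hΩ hb hDΩ (hv n)).2
  have h1 := hK1 (v n) (hv n)
  have h1' : ∫ y in D \ K, ‖v n y‖ ^ 2 ≤ ε / 4 :=
    h1.trans (by nlinarith [hH n])
  have h2 : ∫ y in K ∩ O, ‖v n y‖ ^ 2 ≤ ε / 4 := by
    have h3 : ∫ y in K ∩ O, ‖v n y‖ ^ 2 = ∫ y in K ∩ O, ‖η y • v n y‖ ^ 2 := by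
      apply setIntegral_congr_fun (hKc.measurableSet.inter hO.measurableSet)
      intro y hy
      change ‖v n y‖ ^ 2 = ‖η y • v n y‖ ^ 2
      rw [hη1 y hy.1, one_smul]
    rw [h3]
    refine le_trans ?_ (hδ2 O hO.measurableSet hOv (v n) (hv n) (hH n))
    apply setIntegral_mono_set
    · have hf1 := contDiff_prod hΩ (hv n) hη (hηs.trans hDΩ')
      have hm2 : MemLp (fun y => η y • v n y) 2 volume :=
        hf1.continuous.memLp_of_hasCompactSupport (compact_prod hηc)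
      exact (hm2.integrable_norm_pow (by norm_num)).integrableOn
    · exact Eventually.of_forall fun y => by positivity
    · exact Eventually.of_forall fun y hy => hy.2
  have h3 : ∫ y in K \ O, ‖v n y‖ ^ 2 < ε / 4 := by
    have := hN n hn
    rw [Real.dist_eq, sub_zero] at this
    exact (le_abs_self _).trans_lt this
  have h4 : ∫ y in D, ‖v n y‖ ^ 2 = (∫ y in K, ‖v n y‖ ^ 2) + ∫ y in D \ K, ‖v n y‖ ^ 2 := by
    rw [← integral_inter_add_sdiff hKc.measurableSet hint, inter_eq_self_of_subset_right hKD]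
  have h5 : ∫ y in K, ‖v n y‖ ^ 2 = (∫ y in K ∩ O, ‖v n y‖ ^ 2) + ∫ y in K \ O, ‖v n y‖ ^ 2 :=
    (integral_inter_add_sdiff hO.measurableSet (hint.mono_set hKD)).symm
  have h6 : 0 ≤ ∫ y in D, ‖v n y‖ ^ 2 := integral_nonneg fun y => by positivity
  rw [Real.dist_eq, sub_zero, abs_of_nonneg h6, h4, h5]
  linarith

end

end Pool.Agent.E8helper67.PM
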